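import Mathlib
import Pool.Agent.H31.Spec2

set_option autoImplicit false
open Matrix Finset

namespace Pool.Agent.Results.MP_0d5a8e_co.Counter

def H : SimpleGraph (Fin 12) where
  Adj i j := i ≠ j ∧ ¬ (i.val / 6 = j.val / 6 ∧ ((i.val + 1) % 6 = j.val % 6 ∨ (j.val + 1) % 6 = i.val % 6))
  symm := ⟨by decide⟩
  loopless := ⟨by decide⟩

instance : DecidableRel H.Adj := fun i j => by unfold H; infer_instance

def P : Matrix (Fin 12) (Fin 12) ℤ :=
  !![1, 1, 1, 1, 1, 1, 1, 0, 0, 0, 0, 0;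
     1, 1, -1, -1, 1, 1, -1, 0, 0, 0, 0, 0;
     1, 1, 1, 0, -2, 0, -2, 0, 0, 0, 0, 0;
     1, 1, -1, 1, 1, -1, -1, 0, 0, 0, 0, 0;
     1, 1, 1, -1, 1, -1, 1, 0, 0, 0, 0, 0;
     1, 1, -1, 0, -2, 0, 2, 0, 0, 0, 0, 0;
     1, -1, 0, 0, 0, 0, 0, 1, 1, 1, 1, 1;
     1, -1, 0, 0, 0, 0, 0, -1, -1, 1, 1, -1;
     1, -1, 0, 0, 0, 0, 0, 1, 0, -2, 0, -2;
     1, -1, 0, 0, 0, 0, 0, -1, 1, 1, -1, -1;
     1, -1, 0, 0, 0, 0, 0, 1, -1, 1, -1, 1;
     1, -1, 0, 0, 0, 0, 0, -1, 0, -2, 0, 2]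

theorem spec : spectrum ℝ (H.adjMatrix ℝ) = {9, 1, 0, -2, -3} := by
  rw [H31.Spec.spec_eq, H31.Spec.adj_cast, H31.Spec.roots_of_eig (P := P) (Q := Pᵀ)
    (w := ![12, 12, 6, 4, 12, 4, 12, 6, 4, 12, 4, 12]) (d := ![9, -3, 1, 0, 0, -2, -2, 1, 0, 0, -2, -2])
    (by decide) (by decide +kernel) (by decide +kernel)]
  ext
  simp [Fin.univ_succ]
  tauto

def u : Fin 2 → Fin 12 → ℤ :=
  ![![1, -1, 1, -1, 1, -1, 0, 0, 0, 0, 0, 0], ![0, 0, 0, 0, 0, 0, 1, -1, 1, -1, 1, -1]]

theorem result : ¬ ∀ (n d : ℕ) (G : SimpleGraph (Fin n)) [DecidableRel G.Adj] (θ : ℝ)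
    (u : Fin d → Fin n → ℝ) (v : Fin n → Fin d → ℝ),
    IsGreatest (spectrum ℝ (G.adjMatrix ℝ) \ {sSup (spectrum ℝ (G.adjMatrix ℝ))}) θ →
    LinearIndependent ℝ u →
    Submodule.span ℝ (Set.range u) = Module.End.eigenspace (toLin' (G.adjMatrix ℝ)) θ →
    (∀ i k, v i k = u k i) → ∀ i j, G.Adj i j → v i ≠ v j →
    v i ∈ (convexHull ℝ (Set.range v)).extremePoints ℝ →
    v j ∈ (convexHull ℝ (Set.range v)).extremePoints ℝ →
    IsExtreme ℝ (convexHull ℝ (Set.range v)) (segment ℝ (v i) (v j)) := by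
  intro h
  have s9 : sSup (spectrum ℝ (H.adjMatrix ℝ)) = 9 := by
    refine IsGreatest.csSup_eq ⟨by simp [spec], fun x hx => ?_⟩
    simp [spec] at hx
    rcases hx with rfl | rfl | rfl | rfl | rfl <;> norm_num
  let v : Fin 12 → Fin 2 → ℝ := fun i k => u k i
  have hv : ∀ x ∈ convexHull ℝ (Set.range v), |x 0| + |x 1| ≤ 1 := by
    refine convexHull_min (t := {x : Fin 2 → ℝ | |x 0| + |x 1| ≤ 1}) ?_ ?_
    · rintro _ ⟨i, rfl⟩
      fin_cases i <;> simp [v, u]
    · intro x hx y hy a b ha hb hab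
      simp only [Set.mem_ofPred_eq, Pi.add_apply, Pi.smul_apply, smul_eq_mul] at *
      have e1 := abs_add_le (a * x 0) (b * y 0)
      have e2 := abs_add_le (a * x 1) (b * y 1)
      rw [abs_mul, abs_mul, abs_of_nonneg ha, abs_of_nonneg hb] at e1 e2
      nlinarith
  have ex : ∀ (i : Fin 12) (s : ℝ), s = 1 ∨ s = -1 → v i = ![s, 0] →
      v i ∈ (convexHull ℝ (Set.range v)).extremePoints ℝ := fun i s hs e => by
    refine ⟨subset_convexHull _ _ ⟨i, rfl⟩, fun x hx y hy ⟨a, b, ha, hb, hab, hxy⟩ => ?_⟩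
    have e0 := congrFun hxy 0
    simp [e] at e0
    have e1 := hv x hx
    have e2 := hv y hy
    have e3 : x 0 = s := by
      rcases hs with rfl | rfl <;>
        nlinarith [abs_nonneg (x 1), abs_nonneg (y 1), le_abs_self (x 0), le_abs_self (y 0),
          neg_abs_le (x 0), neg_abs_le (y 0)]
    have e4 : x 1 = 0 := by
      have : |x 0| = 1 := by rcases hs with rfl | rfl <;> simp [e3]
      exact abs_nonpos_iff.mp (by linarith)
    rw [e]; funext k; fin_cases k <;> simp [e3, e4]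
  have v0 : v 0 = ![1, 0] := by funext k; fin_cases k <;> simp [v, u]
  have v3 : v 3 = ![-1, 0] := by funext k; fin_cases k <;> simp [v, u]
  have := h 12 2 H 1 (fun k i => u k i) v ⟨by rw [s9]; simp [spec], fun x hx => ?_⟩ ?_ ?_
    (fun _ _ => rfl) 0 3 (by decide) (fun e => by
      have := congrFun e 0; simp [v0, v3] at this; linarith)
    (ex 0 1 (by simp) v0) (ex 3 (-1) (by simp) v3)
  · obtain ⟨a, b, -, -, -, e⟩ := this.left_mem_of_mem_openSegment (x := v 6) (y := v 7) (z := 0)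
      (subset_convexHull _ _ ⟨6, rfl⟩) (subset_convexHull _ _ ⟨7, rfl⟩)
      ⟨1 / 2, 1 / 2, by norm_num, by norm_num, by norm_num, by
        funext k; fin_cases k <;> simp [v0, v3]⟩
      ⟨1 / 2, 1 / 2, by norm_num, by norm_num, by norm_num, by
        funext k; fin_cases k <;> simp [v, u]⟩
    simpa [v, u] using congrFun e 1
  · rw [s9] at hx
    simp [spec] at hx
    rcases hx with ⟨rfl | rfl | rfl | rfl | rfl, h9⟩ <;> first | exact absurd rfl h9 | norm_num
  · rw [Fintype.linearIndependent_iff]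
    intro g hg k
    have e0 := congrFun hg 0
    have e1 := congrFun hg 6
    simp [u] at e0 e1
    fin_cases k <;> assumption
  · refine le_antisymm (Submodule.span_le.mpr ?_) fun x hx => ?_
    · rintro _ ⟨k, rfl⟩
      have hu : ∀ k i, ∑ j, H.adjMatrix ℤ i j * u k j = u k i := by decide +kernel
      refine Module.End.mem_eigenspace_iff.mpr (funext fun i => ?_)
      have := congrArg (Int.cast (R := ℝ)) (hu k i)
      simpa [H31.Spec.adj_cast, mulVec, dotProduct] using this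
    · have e := congrFun (Module.End.mem_eigenspace_iff.mp hx)
      have a : ∀ i j, H.adjMatrix ℝ i j = if H.Adj i j then 1 else 0 := fun _ _ => rfl
      have t : ∀ i, x i = ∑ j, (if H.Adj i j then 1 else 0) * x j := fun i => by
        simpa [mulVec, dotProduct, a, -SimpleGraph.adjMatrix_mulVec_apply] using (e i).symm
      have t0 := t 0; have t1 := t 1; have t2 := t 2; have t3 := t 3; have t4 := t 4
      have t5 := t 5; have t6 := t 6; have t7 := t 7; have t8 := t 8; have t9 := t 9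
      have t10 := t 10; have t11 := t 11
      simp +decide [Fin.sum_univ_succ] at t0 t1 t2 t3 t4 t5 t6 t7 t8 t9 t10 t11
      rw [Submodule.mem_span_range_iff_exists_fun]
      refine ⟨![x 0, x 6], funext fun i => ?_⟩
      fin_cases i <;> simp [u] <;> linarith

end Pool.Agent.Results.MP_0d5a8e_co.Counter
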